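import Mathlib

/-!
# Objects with graded numerical invariants, products with surfaces and coverings

Helper file for `MP_984acc_gt.AsymptoticSinger` and `MP_8fe54c_gt.AsymptoticVanishing`.
-/

set_option autoImplicit false

namespace Pool.Agent.U644.GD

/-- Objects (Poincaré duality groups, or compact aspherical manifolds) with dimension, `L²`-Betti
numbers, a real number `size` and products; `Covers Y X d`: `Y` is a subgroup of index `d` of `X`,
respectively a `d`-sheeted covering of `X`. -/
structure Data where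
  Obj : Type
  dim : Obj → ℕ
  betti : Obj → ℕ → ℝ
  size : Obj → ℝ
  prod : Obj → Obj → Obj
  Covers : Obj → Obj → ℕ → Prop

/-- The common facts: `L²`-Betti numbers and `size` are not negative; dimensions of products add;
one term of the Künneth formula; coverings of degree `d` keep the dimension, multiply the
`L²`-Betti numbers by `d` and multiply `size` by at most `d`; there is a surface with
`b₁ > 0` (of genus two) whose product with every object has coverings of all degrees. -/
structure Facts (A : Data) : Prop where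
  betti_nonneg : ∀ X i, 0 ≤ A.betti X i
  size_nonneg : ∀ X, 0 ≤ A.size X
  dim_prod : ∀ X Y, A.dim (A.prod X Y) = A.dim X + A.dim Y
  kunneth : ∀ X Y i j, A.betti X i * A.betti Y j ≤ A.betti (A.prod X Y) (i + j)
  dim_covers : ∀ Y X d, A.Covers Y X d → A.dim Y = A.dim X
  betti_covers : ∀ Y X d, A.Covers Y X d → ∀ i, A.betti Y i = d * A.betti X i
  size_covers : ∀ Y X d, A.Covers Y X d → A.size Y ≤ d * A.size X
  surface : ∃ S, A.dim S = 2 ∧ 0 < A.betti S 1 ∧
    ∀ X (d : ℕ), 0 < d → ∃ Y, A.Covers Y (A.prod X S) d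

theorem times {A : Data} (h : Facts A) {P X : A.Obj} {p i : ℕ} (hP : 0 < A.betti P p)
    (hX : 0 < A.betti X i) (k : ℕ) :
    ∃ Q, A.dim Q = A.dim P + k * A.dim X ∧ 0 < A.betti Q (p + k * i) := by
  induction k with
  | zero => exact ⟨P, by simp, by simpa using hP⟩
  | succ k ih =>
    obtain ⟨Q, h1, h2⟩ := ih
    refine ⟨A.prod Q X, ?_, ?_⟩
    · rw [h.dim_prod, h1]; ring
    · have h3 := h.kunneth Q X (p + k * i) i
      have h4 : p + (k + 1) * i = p + k * i + i := by ring
      rw [h4]
      exact lt_of_lt_of_le (mul_pos h2 hX) h3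

/-- On the coverings of `Q × S` the `j`-th Betti number is not bounded by `η size + C`, for some
`η > 0` and all `C`. -/
theorem not_sublinear {A : Data} (h : Facts A) {Q S : A.Obj} {j : ℕ}
    (hS : ∀ X (d : ℕ), 0 < d → ∃ Y, A.Covers Y (A.prod X S) d)
    (hj : 0 < A.betti (A.prod Q S) j) :
    ∃ η : ℝ, 0 < η ∧ ∀ C : ℝ, ∃ Y, A.dim Y = A.dim (A.prod Q S) ∧
      η * A.size Y + C < A.betti Y j := by
  set P := A.prod Q S with hP
  have hs := h.size_nonneg P
  have hs1 : 0 < A.size P + 1 := by linarith
  refine ⟨A.betti P j / (2 * (A.size P + 1)), by positivity, fun C => ?_⟩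
  obtain ⟨d, hd⟩ := exists_nat_gt (2 * C / A.betti P j)
  rw [div_lt_iff₀ hj] at hd
  obtain ⟨Y, hY⟩ := hS Q (d + 1) (Nat.succ_pos d)
  rw [← hP] at hY
  refine ⟨Y, h.dim_covers _ _ _ hY, ?_⟩
  rw [h.betti_covers _ _ _ hY]
  have h1 := h.size_covers _ _ _ hY
  push_cast at h1 ⊢
  have hd0 : (0 : ℝ) ≤ d := Nat.cast_nonneg d
  have h2 : A.betti P j / (2 * (A.size P + 1)) * A.size Y ≤ (d + 1) * A.betti P j / 2 := by
    calc A.betti P j / (2 * (A.size P + 1)) * A.size Y
        ≤ A.betti P j / (2 * (A.size P + 1)) * ((d + 1) * (A.size P + 1)) := by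
          refine mul_le_mul_of_nonneg_left (h1.trans ?_) (by positivity)
          exact mul_le_mul_of_nonneg_left (by linarith) (by linarith)
      _ = (d + 1) * A.betti P j / 2 := by
          field_simp
  nlinarith

end Pool.Agent.U644.GD
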